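import Pool.Agent.W123.PP.Nth

set_option autoImplicit false

/-!
# All neighbours of almost all primes, in every interval of length `x ^ θ`

For every `θ > 0` and `ε > 0` there is `c > 0` such that in every interval `(X, X + Y]` with
`X ^ θ ≤ Y ≤ X` all but `ε Y / log X` of the primes `p_n` have all their neighbours at the right
distance: `c k log X ≤ |p_(n ± k) - p_n| ≤ k log X / c` for ALL `1 ≤ k ≤ c Y / log X`
simultaneously, and up to `δ` the distances are linear in `k` on all but `K (ε, δ)` dyadic ranges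
`k ≤ 2 ^ j`. Some `θ < 1` has the property that these intervals contain `≫ Y / log X` primes.
-/

namespace Pool.Agent.Results.MP_69be96_nt.AllNeighboursOfAlmostAllPrimes

open Finset Filter

/-- `(X, X + Y]` contains at least `c Y / log X` primes whenever `X ^ θ ≤ Y ≤ X` and `X` is large -/
def ShortIntervals (θ : ℝ) : Prop := ∃ c : ℝ, 0 < c ∧ ∃ X₀ : ℕ, 2 ≤ X₀ ∧
  ∀ X Y : ℕ, X₀ ≤ X → (X : ℝ) ^ θ ≤ Y → Y ≤ X →
    c * Y / Real.log X ≤ (((Finset.Ioc X (X + Y)).filter Nat.Prime).card : ℝ)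

/-- the primes in increasing order, `p 0 = 2` -/
noncomputable def p (n : ℕ) : ℕ := Nat.nth Nat.Prime n

/-- all neighbours `p (n ± k)` of `p n` with `1 ≤ k ≤ c Y / log X` are at the right distance -/
def AllNeighbours (c : ℝ) (X Y n : ℕ) : Prop :=
  ∀ k : ℕ, 1 ≤ k → (k : ℝ) ≤ c * Y / Real.log X → k ≤ n ∧
    c * k * Real.log X ≤ (p (n + k) : ℝ) - p n ∧ (p (n + k) : ℝ) - p n ≤ k * Real.log X / c ∧
    c * k * Real.log X ≤ (p n : ℝ) - p (n - k) ∧ (p n : ℝ) - p (n - k) ≤ k * Real.log X / c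

/-- up to `δ` the distances of the neighbours `p (n ± k)`, `k ≤ 2 ^ j`, are linear in `k` -/
def LinearAt (c δ : ℝ) (X n j : ℕ) : Prop :=
  ∃ lam : ℝ, c ≤ lam ∧ lam ≤ 1 / c ∧ ∀ k : ℕ, k ≤ 2 ^ j →
    |(p (n + k) : ℝ) - p n - lam * k * Real.log X| ≤ δ * 2 ^ j * Real.log X ∧
    |(p n : ℝ) - p (n - k) - lam * k * Real.log X| ≤ δ * 2 ^ j * Real.log X

open Classical in
/-- the number of `j` with `2 ^ j ≤ c Y / log X` without this property -/
noncomputable def badScales (c δ : ℝ) (X Y n : ℕ) : ℕ :=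
  ((Finset.range (Nat.log 2 Y + 1)).filter (fun j => (2 : ℝ) ^ j ≤ c * Y / Real.log X ∧
    ¬ LinearAt c δ X n j)).card

open Pool.Agent.W123.PP Pool.Agent.W123.RP Pool.Agent.W123.GS

lemma pow_between (x : ℝ) (hx : 1 ≤ x) : ∃ s : ℕ, x ≤ (2 : ℝ) ^ s ∧ (2 : ℝ) ^ s < 2 * x := by
  classical
  have h1 : ∃ j : ℕ, x ≤ (2 : ℝ) ^ j := by
    obtain ⟨j, hj⟩ := pow_unbounded_of_one_lt x (one_lt_two : (1 : ℝ) < 2)
    exact ⟨j, hj.le⟩
  refine ⟨Nat.find h1, Nat.find_spec h1, ?_⟩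
  rcases Nat.eq_zero_or_pos (Nat.find h1) with h | h
  · rw [h, pow_zero]; linarith
  · have h2 := Nat.find_min h1 (m := Nat.find h1 - 1) (by omega)
    rw [not_le] at h2
    have h3 : (2 : ℝ) ^ (Nat.find h1) = 2 ^ (Nat.find h1 - 1) * 2 := by
      rw [← pow_succ]; congr 1; omega
    linarith

open Classical in
/-- **All neighbours of almost all primes.** -/
theorem result :
    (∃ θ : ℝ, 0 < θ ∧ θ < 1 ∧ ShortIntervals θ) ∧
    (∀ θ : ℝ, 0 < θ → θ ≤ 1 → ∀ ε : ℝ, 0 < ε → ∃ c : ℝ, 0 < c ∧ ∀ δ : ℝ, 0 < δ → ∃ K : ℕ,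
      ∀ᶠ X : ℕ in atTop, ∀ Y : ℕ, (X : ℝ) ^ θ ≤ Y → Y ≤ X →
        (((Finset.range (X + Y + 1)).filter (fun n => X < p n ∧ p n ≤ X + Y ∧
          ¬ (AllNeighbours c X Y n ∧ badScales c δ X Y n ≤ K))).card : ℝ) ≤
          ε * Y / Real.log X) := by
  refine ⟨Pool.Agent.H932R4.MO.exists_short, ?_⟩
  intro θ h0 h1 ε hε
  obtain ⟨c1, Lam, hc1, hLam, hwin⟩ := prime_windows θ h0 h1 (ε / 2) (by positivity)
  obtain ⟨C, hC, u0, hclose⟩ := few_close θ h0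
  have hC0 : 0 < C := by linarith
  obtain ⟨c0, hc0def⟩ : ∃ c0 : ℝ, c0 = min c1 1 := ⟨_, rfl⟩
  have hc0 : 0 < c0 := by rw [hc0def]; exact lt_min hc1 one_pos
  have hc0c1 : c0 ≤ c1 := by rw [hc0def]; exact min_le_left _ _
  have hc01 : c0 ≤ 1 := by rw [hc0def]; exact min_le_right _ _
  obtain ⟨η, hη⟩ : ∃ η : ℝ, η = min (ε / (4 * C)) 1 := ⟨_, rfl⟩
  have hη0 : 0 < η := by rw [hη]; positivity
  have hη1 : η ≤ 1 := by rw [hη]; exact min_le_right _ _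
  have hηC : C * η ≤ ε / 4 := by
    have : η ≤ ε / (4 * C) := by rw [hη]; exact min_le_left _ _
    calc C * η ≤ C * (ε / (4 * C)) := by gcongr
      _ = ε / 4 := by field_simp
  obtain ⟨c, hcdef⟩ : ∃ c : ℝ, c = min (min (1 / Lam) (η / Lam)) (c0 / 4) := ⟨_, rfl⟩
  have hc : 0 < c := by rw [hcdef]; positivity
  have hcm : c ≤ min (1 / Lam) (η / Lam) := by rw [hcdef]; exact min_le_left _ _
  have hc4 : c ≤ c0 / 4 := by rw [hcdef]; exact min_le_right _ _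
  have hcL : c ≤ 1 / Lam := hcm.trans (min_le_left _ _)
  have hinv : 4 / c0 ≤ 1 / c := by
    rw [div_le_div_iff₀ hc0 hc]; linarith
  refine ⟨c, hc, ?_⟩
  intro δ hδ
  obtain ⟨δ', hδ'⟩ : ∃ δ' : ℝ, δ' = min (c0 / 4) (δ * c0 ^ 2 / 16) := ⟨_, rfl⟩
  have hδ'0 : 0 < δ' := by rw [hδ']; positivity
  obtain ⟨K, hwin⟩ := hwin δ' hδ'0
  refine ⟨K, ?_⟩
  have hXr : Tendsto (fun X : ℕ => (X : ℝ)) atTop atTop := tendsto_natCast_atTop_atTop
  have hlogX : Tendsto (fun X : ℕ => Real.log (X : ℝ)) atTop atTop :=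
    Real.tendsto_log_atTop.comp hXr
  have hpow : Tendsto (fun X : ℕ => (X : ℝ) ^ θ) atTop atTop :=
    (tendsto_rpow_atTop h0).comp hXr
  obtain ⟨C1, C2, hC1, hC2, hin⟩ := input θ h0 h1
  filter_upwards [hwin, hin (4 * η / ε + 4 / c0 + 4), eventually_ge_atTop 3,
    hlogX.eventually_ge_atTop 2, hpow.eventually_ge_atTop ((u0 : ℝ) + 1)] with X hX hin hX3 hL2 hu0
  intro Y hY hYX
  have hbad := hX Y hY hYX
  obtain ⟨-, -, hBY, -, -⟩ := hin Y hY hYX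
  obtain ⟨L, hL⟩ : ∃ L : ℝ, L = Real.log X := ⟨_, rfl⟩
  unfold badScales AllNeighbours LinearAt
  rw [← hL] at hbad hBY hL2 ⊢
  have hL0 : 0 < L := by linarith
  have hYpos : (0 : ℝ) < Y := by
    have : (0 : ℝ) < (X : ℝ) ^ θ := by positivity
    linarith
  have hLsq : L ≤ L ^ 2 := by nlinarith
  have hBY' : 4 * η / ε * L ^ 2 + 4 / c0 * L ^ 2 + 4 * L ^ 2 ≤ Y := by linarith
  have t1 : 0 ≤ 4 * η / ε * L ^ 2 := by positivity
  have t2 : 0 ≤ 4 / c0 * L ^ 2 := by positivity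
  have t3 : 0 ≤ 4 * L ^ 2 := by positivity
  have hLY : L ≤ Y := by linarith
  have hc0L : L / c0 + 1 ≤ Y / 2 := by
    have a1 : 4 / c0 * L ≤ 4 / c0 * L ^ 2 := by gcongr
    have a2 : 4 / c0 * L = 4 * (L / c0) := by ring
    nlinarith
  have hu : u0 ≤ Y := by
    have : (u0 : ℝ) ≤ Y := by linarith
    exact_mod_cast this
  obtain ⟨Tη, hTη⟩ : ∃ Tη : ℕ, Tη = ⌊η * L⌋₊ := ⟨_, rfl⟩
  have hTηL : (Tη : ℝ) ≤ η * L := by rw [hTη]; exact Nat.floor_le (by positivity)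
  have hTηY : Tη ≤ Y := by
    have : η * L ≤ 1 * L := by gcongr
    have : (Tη : ℝ) ≤ Y := by linarith
    exact_mod_cast this
  have hB := hclose X Y Tη hX3 hY hu hTηY
  rw [← hL] at hB
  obtain ⟨A, hA⟩ : ∃ A, A = ((Finset.Ioc X (X + Y)).filter (fun p => p.Prime ∧ ¬ (
        (∀ H : ℕ, 1 ≤ H → H ≤ Y →
          c1 / L * H ≤ cl Nat.Prime p (p + H) ∧
          c1 / L * H ≤ cl Nat.Prime (p + 1 - H) (p + 1)) ∧
        (∀ H : ℕ, ⌊L⌋₊ ≤ H → H ≤ Y →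
          (co Nat.Prime p (p + H) : ℝ) ≤ Lam / L * H ∧
          (co Nat.Prime (p - H) p : ℝ) ≤ Lam / L * H) ∧
        ((range (Nat.log 2 Y + 1)).filter (fun j => L ≤ (2 : ℝ) ^ j ∧
          ¬ Good Nat.Prime 0 Lam δ' L p j)).card ≤ K))) := ⟨_, rfl⟩
  obtain ⟨B, hBdef⟩ : ∃ B, B = ((Ioc X (X + Y)).filter (fun p => p.Prime ∧ ∃ h : ℕ, 1 ≤ h ∧ h ≤ Tη ∧
        ((p + h).Prime ∨ (h ≤ p ∧ (p - h).Prime)))) := ⟨_, rfl⟩
  rw [← hA] at hbad
  rw [← hBdef] at hB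
  have hB' : (B.card : ℝ) ≤ ε / 2 * Y / L := by
    refine hB.trans ?_
    have a1 : C * Y * Tη / L ^ 2 ≤ ε / 4 * Y / L := by
      calc C * Y * Tη / L ^ 2 ≤ C * Y * (η * L) / L ^ 2 := by gcongr
        _ = (C * η) * Y / L := by field_simp
        _ ≤ ε / 4 * Y / L := by gcongr
    have a2 : (Tη : ℝ) ≤ ε / 4 * Y / L := by
      rw [le_div_iff₀ hL0]
      have a3 : 4 * η / ε * L ^ 2 ≤ Y := by linarith
      calc (Tη : ℝ) * L ≤ η * L * L := by gcongr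
        _ = ε / 4 * (4 * η / ε * L ^ 2) := by field_simp
        _ ≤ ε / 4 * Y := by gcongr
    have a4 : ε / 2 * Y / L = ε / 4 * Y / L + ε / 4 * Y / L := by ring
    linarith
  obtain ⟨s, hs1, hs2⟩ := pow_between (2 / c0 * L) (by
    have : 1 ≤ 2 / c0 := by rw [le_div_iff₀ hc0]; linarith
    nlinarith)
  have hmain : ∀ n ∈ (Finset.range (X + Y + 1)).filter (fun n => X < p n ∧ p n ≤ X + Y ∧
      ¬ ((∀ k : ℕ, 1 ≤ k → (k : ℝ) ≤ c * Y / L → k ≤ n ∧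
    c * k * L ≤ (p (n + k) : ℝ) - p n ∧ (p (n + k) : ℝ) - p n ≤ k * L / c ∧
    c * k * L ≤ (p n : ℝ) - p (n - k) ∧ (p n : ℝ) - p (n - k) ≤ k * L / c) ∧
      ((Finset.range (Nat.log 2 Y + 1)).filter (fun j => (2 : ℝ) ^ j ≤ c * Y / L ∧
    ¬ (∃ lam : ℝ, c ≤ lam ∧ lam ≤ 1 / c ∧ ∀ k : ℕ, k ≤ 2 ^ j →
    |(p (n + k) : ℝ) - p n - lam * k * L| ≤ δ * 2 ^ j * L ∧
    |(p n : ℝ) - p (n - k) - lam * k * L| ≤ δ * 2 ^ j * L))).card ≤ K)),
      p n ∈ A ∪ B := by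
    intro n hn
    rw [mem_filter] at hn
    obtain ⟨-, hn1, hn2, hn3⟩ := hn
    by_contra hcon
    rw [mem_union, not_or] at hcon
    obtain ⟨nA, nB⟩ := hcon
    have hpr : (p n).Prime := pr_prime n
    have hIoc : p n ∈ Ioc X (X + Y) := mem_Ioc.2 ⟨hn1, hn2⟩
    rw [hA, mem_filter] at nA
    rw [hBdef, mem_filter] at nB
    have hW : (∀ H : ℕ, 1 ≤ H → H ≤ Y →
          c1 / L * H ≤ cl Nat.Prime (p n) (p n + H) ∧
          c1 / L * H ≤ cl Nat.Prime (p n + 1 - H) (p n + 1)) ∧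
        (∀ H : ℕ, ⌊L⌋₊ ≤ H → H ≤ Y →
          (co Nat.Prime (p n) (p n + H) : ℝ) ≤ Lam / L * H ∧
          (co Nat.Prime (p n - H) (p n) : ℝ) ≤ Lam / L * H) ∧
        ((range (Nat.log 2 Y + 1)).filter (fun j => L ≤ (2 : ℝ) ^ j ∧
          ¬ Good Nat.Prime 0 Lam δ' L (p n) j)).card ≤ K := by
      by_contra h
      exact nA ⟨hIoc, hpr, h⟩
    have hcl : ∀ h : ℕ, 1 ≤ h → h ≤ ⌊η * L⌋₊ → ¬ (pr n + h).Prime ∧
        ¬ (h ≤ pr n ∧ (pr n - h).Prime) := by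
      intro h hh1 hh2
      rw [← hTη] at hh2
      constructor
      · intro h3
        exact nB ⟨hIoc, hpr, h, hh1, hh2, Or.inl h3⟩
      · intro h3
        exact nB ⟨hIoc, hpr, h, hh1, hh2, Or.inr h3⟩
    obtain ⟨W1, W2, W3⟩ := hW
    have hw1 : ∀ H : ℕ, 1 ≤ H → H ≤ Y →
          c0 / L * H ≤ cl Nat.Prime (pr n) (pr n + H) ∧
          c0 / L * H ≤ cl Nat.Prime (pr n + 1 - H) (pr n + 1) := by
      intro H hH1 hH2
      have h3 : c0 / L * H ≤ c1 / L * H := by gcongr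
      exact ⟨h3.trans (W1 H hH1 hH2).1, h3.trans (W1 H hH1 hH2).2⟩
    have hkY : ∀ k : ℕ, (k : ℝ) ≤ c * Y / L → (k + 1 : ℝ) * L / c0 + 1 ≤ Y := by
      intro k hk
      have a1 : (k : ℝ) * L / c0 ≤ Y / 4 := by
        rw [le_div_iff₀ hL0] at hk
        rw [div_le_iff₀ hc0]
        calc (k : ℝ) * L ≤ c * Y := hk
          _ ≤ c0 / 4 * Y := by gcongr
          _ = Y / 4 * c0 := by ring
      have a2 : (k + 1 : ℝ) * L / c0 + 1 = k * L / c0 + (L / c0 + 1) := by ring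
      rw [a2]
      linarith
    have hnear : ∀ k : ℕ, 1 ≤ k → (k : ℝ) ≤ c * Y / L →
        min (1 / Lam) (η / Lam) * k * L ≤ (pr (n + k) : ℝ) - pr n ∧
        (pr (n + k) : ℝ) - pr n ≤ 2 / c0 * k * L ∧ k ≤ n ∧
        min (1 / Lam) (η / Lam) * k * L ≤ (pr n : ℝ) - pr (n - k) ∧
        (pr n : ℝ) - pr (n - k) ≤ 2 / c0 * k * L := by
      intro k hk1 hk2
      exact near_of n Y k L c0 Lam η hL2 hc0 hLam hη0 hLY hw1 W2 hcl hk1 (hkY k hk2)
    apply hn3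
    constructor
    · intro k hk1 hk2
      obtain ⟨q1, q2, q3, q4, q5⟩ := hnear k hk1 hk2
      have e1 : c * k * L ≤ min (1 / Lam) (η / Lam) * k * L := by gcongr
      have e2 : 2 / c0 * k * L ≤ k * L / c := by
        calc 2 / c0 * k * L ≤ 4 / c0 * k * L := by gcongr; norm_num
          _ ≤ 1 / c * k * L := by gcongr
          _ = k * L / c := by ring
      exact ⟨q3, e1.trans q1, q2.trans e2, e1.trans q4, q5.trans e2⟩
    · refine le_trans ?_ W3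
      apply Finset.card_le_card_of_injOn (fun j => j + s)
      · intro j hj
        rw [Finset.mem_coe, mem_filter, mem_range] at hj
        rw [Finset.mem_coe, mem_filter, mem_range]
        beta_reduce
        obtain ⟨-, hj2, hj3⟩ := hj
        have d1 : 2 / c0 * 2 ^ j * L ≤ (2 : ℝ) ^ (j + s) := by
          calc 2 / c0 * 2 ^ j * L = 2 ^ j * (2 / c0 * L) := by ring
            _ ≤ 2 ^ j * 2 ^ s := by gcongr
            _ = 2 ^ (j + s) := by rw [pow_add]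
        have d2 : (2 : ℝ) ^ (j + s) ≤ 4 / c0 * 2 ^ j * L := by
          calc (2 : ℝ) ^ (j + s) = 2 ^ j * 2 ^ s := by rw [pow_add]
            _ ≤ 2 ^ j * (2 * (2 / c0 * L)) := by gcongr
            _ = 4 / c0 * 2 ^ j * L := by ring
        have d3 : 4 / c0 * 2 ^ j * L ≤ Y := by
          rw [le_div_iff₀ hL0] at hj2
          calc 4 / c0 * 2 ^ j * L = 4 / c0 * (2 ^ j * L) := by ring
            _ ≤ 4 / c0 * (c * Y) := by gcongr
            _ ≤ 4 / c0 * (c0 / 4 * Y) := by gcongr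
            _ = Y := by field_simp
        have d4 : 2 ^ (j + s) ≤ Y := by
          have : ((2 ^ (j + s) : ℕ) : ℝ) ≤ Y := by push_cast; linarith
          exact_mod_cast this
        have hY0 : Y ≠ 0 := by
          have : 0 < Y := by exact_mod_cast hYpos
          omega
        refine ⟨?_, ?_, ?_⟩
        · have := (Nat.le_log_iff_pow_le (by norm_num) hY0).2 d4
          omega
        · refine le_trans ?_ d1
          have a1 : (1 : ℝ) ≤ 2 ^ j := one_le_pow₀ (by norm_num)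
          have a2 : (1 : ℝ) ≤ 2 / c0 := by rw [le_div_iff₀ hc0]; linarith
          calc L = 1 * 1 * L := by ring
            _ ≤ 2 / c0 * 2 ^ j * L := by gcongr
        · intro hg
          apply hj3
          obtain ⟨lam, l1, l2, l3⟩ := linear_of n Y j (j + s) L c0 Lam δ δ' hL0 hc0
            (by rw [hδ']; exact min_le_left _ _) (by rw [hδ']; exact min_le_right _ _) hδ'0
            (fun H hH1 hH2 => (hw1 H hH1 hH2).1) hg d4 d1 d2 (by
              intro k hk1 hk2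
              have hk2' : (k : ℝ) ≤ c * Y / L := by
                have : (k : ℝ) ≤ 2 ^ j := by exact_mod_cast hk2
                linarith
              obtain ⟨q1, q2, q3, q4, q5⟩ := hnear k hk1 hk2'
              exact ⟨q2, q3, q5⟩)
          exact ⟨lam, hcL.trans l1, l2.trans hinv, l3⟩
      · intro a _ b _ h
        simpa using h
  have hinj : Set.InjOn (fun n => p n) (↑((Finset.range (X + Y + 1)).filter (fun n => X < p n ∧ p n ≤ X + Y ∧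
      ¬ ((∀ k : ℕ, 1 ≤ k → (k : ℝ) ≤ c * Y / L → k ≤ n ∧
    c * k * L ≤ (p (n + k) : ℝ) - p n ∧ (p (n + k) : ℝ) - p n ≤ k * L / c ∧
    c * k * L ≤ (p n : ℝ) - p (n - k) ∧ (p n : ℝ) - p (n - k) ≤ k * L / c) ∧
      ((Finset.range (Nat.log 2 Y + 1)).filter (fun j => (2 : ℝ) ^ j ≤ c * Y / L ∧
    ¬ (∃ lam : ℝ, c ≤ lam ∧ lam ≤ 1 / c ∧ ∀ k : ℕ, k ≤ 2 ^ j →
    |(p (n + k) : ℝ) - p n - lam * k * L| ≤ δ * 2 ^ j * L ∧
    |(p n : ℝ) - p (n - k) - lam * k * L| ≤ δ * 2 ^ j * L))).card ≤ K))) : Set ℕ) := by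
    intro a _ b _ h
    exact Nat.nth_injective Nat.infinite_setOfPred_prime h
  have hcard := Finset.card_le_card_of_injOn (fun n => p n) hmain hinj
  have h2 := hcard.trans (card_union_le A B)
  have h3 : ((((Finset.range (X + Y + 1)).filter (fun n => X < p n ∧ p n ≤ X + Y ∧
      ¬ ((∀ k : ℕ, 1 ≤ k → (k : ℝ) ≤ c * Y / L → k ≤ n ∧
    c * k * L ≤ (p (n + k) : ℝ) - p n ∧ (p (n + k) : ℝ) - p n ≤ k * L / c ∧
    c * k * L ≤ (p n : ℝ) - p (n - k) ∧ (p n : ℝ) - p (n - k) ≤ k * L / c) ∧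
      ((Finset.range (Nat.log 2 Y + 1)).filter (fun j => (2 : ℝ) ^ j ≤ c * Y / L ∧
    ¬ (∃ lam : ℝ, c ≤ lam ∧ lam ≤ 1 / c ∧ ∀ k : ℕ, k ≤ 2 ^ j →
    |(p (n + k) : ℝ) - p n - lam * k * L| ≤ δ * 2 ^ j * L ∧
    |(p n : ℝ) - p (n - k) - lam * k * L| ≤ δ * 2 ^ j * L))).card ≤ K))).card : ℕ) : ℝ) ≤
      A.card + B.card := by exact_mod_cast h2
  refine h3.trans ?_
  have e : ε * Y / L = ε / 2 * Y / L + ε / 2 * Y / L := by ring
  rw [e]
  exact add_le_add hbad hB'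

end Pool.Agent.Results.MP_69be96_nt.AllNeighboursOfAlmostAllPrimes
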