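import Pool.Agent.W126.AdjMain

set_option autoImplicit false

/-!
# Sum systems of exact gap vectors next to record gaps

Let `f(x) = log x (log₂ x)² log₄ x / (log₃ x)²`, the size of the largest gaps between consecutive primes that
are known to occur up to `x`. There are constants `c_1, c_2, … > 0` with the following property. Let
`d_0, d_1, …` be ANY sequence of positive integers. There are nonempty finite sets `W_0 < W_1 < …` of indices
such that, with `x_F` the sum of the `d_a` over the `a` in the union of the `W_i`, `i ∈ F`, EVERY vector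

`(x_{F_0}, x_{F_1}, …, x_{F_{m-1}})`, `F_0 < F_1 < … < F_{m-1}` far enough out (depending on `m`),

is, infinitely often, a vector of `m` consecutive prime gaps which is immediately followed by a gap
`≥ c_m f(p_n)`, and, infinitely often, one which is immediately preceded by such a gap; the same holds for the
reversed vectors, for the vectors multiplied by any positive integer function of `k` further blocks preceding
`F_0`, for prescribed residue classes of all the primes involved, and for countably many sequences at once, with the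
same sets `W_i`.

Method: (1) among any `K(m)` integers there are `m` which form the EXACT pattern of the primes in intervals of record
length on both sides (`Pool.Agent.W126.RecIso.core`: the coloured Maynard-Tao theorem of the starting files places the
tuple at primes of the record window, the coloured Maynard-Tao theorem inside the record windows does the rest);
(2) Milliken's theorem for closed families of block sequences (`Pool.Agent.W68.Mil2`, helper68).
-/

open Filter

namespace Pool.Agent.Results.MP_69be96_nt.GapVectorsNextToRecordGaps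

/-- The record scale `f(x) = log x (log₂ x)² log₄ x / (log₃ x)²` (iterated natural logarithms). -/
noncomputable def f (x : ℝ) : ℝ :=
  Real.log x * (Real.log (Real.log x)) ^ 2 * Real.log (Real.log (Real.log (Real.log x))) /
    (Real.log (Real.log (Real.log x))) ^ 2

/-- The `n`-th prime, numbered from `p 0 = 2`. -/
noncomputable def p (n : ℕ) : ℕ := Nat.nth Nat.Prime n

/-- For infinitely many `n` the primes `p_n, …, p_{n+m}` are `≡ r (mod q)`, the `m` gaps between them are
`x 0, …, x (m-1)`, and the next gap is at least `c f(p_n)`. -/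
def FollowedByRecordGap (c : ℝ) (m q r : ℕ) (x : Fin m → ℕ) : Prop :=
  ∃ᶠ n : ℕ in atTop, (∀ i ≤ m, p (n + i) ≡ r [MOD q]) ∧
    (∀ i : Fin m, p (n + i + 1) = p (n + i) + x i) ∧ c * f (p n) ≤ (p (n + m + 1) : ℝ) - p (n + m)

/-- For infinitely many `n` the primes `p_{n+1}, …, p_{n+1+m}` are `≡ r (mod q)`, the `m` gaps between them are
`x 0, …, x (m-1)`, and the gap `p_{n+1} - p_n` before them is at least `c f(p_n)`. -/
def PrecededByRecordGap (c : ℝ) (m q r : ℕ) (x : Fin m → ℕ) : Prop :=
  ∃ᶠ n : ℕ in atTop, (∀ i ≤ m, p (n + 1 + i) ≡ r [MOD q]) ∧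
    (∀ i : Fin m, p (n + 1 + i + 1) = p (n + 1 + i) + x i) ∧ c * f (p n) ≤ (p (n + 1) : ℝ) - p n

/-- There are `c m > 0` such that the following holds. For every index `s` let `q s` be squarefree, `r s` prime to
`q s`, `d s` a sequence of positive integers, and for every `k` let `ρ s k` be a positive integer valued function
of `k` finite sets. There are nonempty finite sets `W_0 < W_1 < …` such that for all `s, k, m` there is `N` with:
for all nonempty finite sets `N ≤ F_0 < F_1 < … < F_{k+m-1}` the vector of the sums of `d s` over the unions of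
the `W_i`, `i ∈ F_{k+l}`, `0 ≤ l < m`, multiplied by `ρ s k` of the first `k` unions, and the reversed vector,
are vectors of consecutive prime gaps, both immediately before and immediately after gaps `≥ c m * f`. -/
theorem result : ∃ c : ℕ → ℝ, (∀ m, 0 < c m) ∧ ∀ (q r : ℕ → ℕ), (∀ s, Squarefree (q s)) →
    (∀ s, (r s).Coprime (q s)) → ∀ (d : ℕ → ℕ → ℕ), (∀ s a, 1 ≤ d s a) →
    ∀ (ρ : ℕ → ∀ k, (Fin k → Finset ℕ) → ℕ), (∀ s k P, 1 ≤ ρ s k P) →
    ∃ W : ℕ → Finset ℕ, (∀ i, (W i).Nonempty) ∧ (∀ i, ∀ a ∈ W i, ∀ b ∈ W (i + 1), a < b) ∧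
      ∀ s k m : ℕ, ∃ N : ℕ, ∀ F : ℕ → Finset ℕ, (∀ l < k + m, (F l).Nonempty) →
        (∀ l < k + m, ∀ i ∈ F l, N ≤ i) →
        (∀ l, l + 1 < k + m → ∀ i ∈ F l, ∀ i' ∈ F (l + 1), i < i') →
        FollowedByRecordGap (c m) m (q s) (r s) (fun i => ρ s k (fun l => (F l).biUnion W) *
          ∑ a ∈ (F (k + i)).biUnion W, d s a) ∧
        PrecededByRecordGap (c m) m (q s) (r s) (fun i => ρ s k (fun l => (F l).biUnion W) *
          ∑ a ∈ (F (k + i)).biUnion W, d s a) ∧
        FollowedByRecordGap (c m) m (q s) (r s) (fun i => ρ s k (fun l => (F l).biUnion W) *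
          ∑ a ∈ (F (k + (Fin.rev i : Fin m))).biUnion W, d s a) ∧
        PrecededByRecordGap (c m) m (q s) (r s) (fun i => ρ s k (fun l => (F l).biUnion W) *
          ∑ a ∈ (F (k + (Fin.rev i : Fin m))).biUnion W, d s a) :=
  Pool.Agent.W126.AdjMain.main

/-- Special case (single gaps): every sequence of positive integers has a sum system all of whose finite sums
`x_F` and products `x_F x_G` (`F < G`) are gaps between consecutive primes that are immediately followed, and also
gaps that are immediately preceded, by a gap of record size. -/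
theorem single : ∃ c : ℝ, 0 < c ∧ ∀ d : ℕ → ℕ, (∀ a, 1 ≤ d a) → ∃ (W : ℕ → Finset ℕ) (N : ℕ),
    (∀ i, (W i).Nonempty) ∧ (∀ i, ∀ a ∈ W i, ∀ b ∈ W (i + 1), a < b) ∧
    ∀ F G : Finset ℕ, F.Nonempty → G.Nonempty → (∀ i ∈ F, N ≤ i) → (∀ i ∈ F, ∀ j ∈ G, i < j) →
      ∀ x : ℕ, (x = ∑ a ∈ F.biUnion W, d a ∨
        x = (∑ a ∈ F.biUnion W, d a) * ∑ a ∈ G.biUnion W, d a) →
      (∃ᶠ n : ℕ in atTop, p (n + 1) = p n + x ∧ c * f (p n) ≤ (p (n + 2) : ℝ) - p (n + 1)) ∧
      (∃ᶠ n : ℕ in atTop, c * f (p n) ≤ (p (n + 1) : ℝ) - p n ∧ p (n + 2) = p (n + 1) + x) := by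
  classical
  obtain ⟨c, hc, hmain⟩ := result
  refine ⟨c 1, hc 1, fun d hd => ?_⟩
  obtain ⟨W, hW1, hW2, hW⟩ := hmain (fun _ => 1) (fun _ => 0) (fun _ => squarefree_one)
    (fun _ => Nat.coprime_one_right 0) (fun _ => d) (fun _ => hd)
    (fun _ k P => max 1 (∑ l : Fin k, ∑ a ∈ P l, d a)) (fun _ _ _ => le_max_left _ _)
  obtain ⟨N1, hN1⟩ := hW 0 0 1
  obtain ⟨N2, hN2⟩ := hW 0 1 1
  refine ⟨W, N1 + N2, hW1, hW2, fun F G hF hG hFN hFG x hx => ?_⟩
  obtain ⟨i0, hi0⟩ := hF
  have hGN : ∀ j ∈ G, N1 + N2 ≤ j := fun j hj => (hFN i0 hi0).trans (hFG i0 hi0 j hj).le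
  have hFp : 1 ≤ ∑ a ∈ F.biUnion W, d a := by
    obtain ⟨a, ha⟩ := hW1 i0
    exact (hd a).trans (Finset.single_le_sum (f := d) (fun _ _ => Nat.zero_le _)
      (Finset.mem_biUnion.2 ⟨i0, hi0, ha⟩))
  have fin : ∀ y : Fin 1 → ℕ, (∀ i, y i = x) → FollowedByRecordGap (c 1) 1 1 0 y →
      PrecededByRecordGap (c 1) 1 1 0 y →
      (∃ᶠ n : ℕ in atTop, p (n + 1) = p n + x ∧ c 1 * f (p n) ≤ (p (n + 2) : ℝ) - p (n + 1)) ∧
      (∃ᶠ n : ℕ in atTop, c 1 * f (p n) ≤ (p (n + 1) : ℝ) - p n ∧ p (n + 2) = p (n + 1) + x) := by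
    intro y hy h1 h2
    constructor
    · refine h1.mono fun n hn => ⟨?_, hn.2.2⟩
      have := hn.2.1 0
      rw [hy 0] at this
      simpa using this
    · refine h2.mono fun n hn => ⟨hn.2.2, ?_⟩
      have := hn.2.1 0
      rw [hy 0] at this
      simpa using this
  rcases hx with rfl | rfl
  · obtain ⟨h1, h2, -⟩ := hN1 (fun _ => F) (fun _ _ => ⟨i0, hi0⟩)
      (fun _ _ i hi => (Nat.le_add_right _ _).trans (hFN i hi)) (fun l hl => by omega)
    refine fin _ (fun i => ?_) h1 h2
    simp
  · obtain ⟨h1, h2, -⟩ := hN2 (fun l => if l = 0 then F else G) (fun l hl => by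
        split_ifs
        · exact ⟨i0, hi0⟩
        · exact hG) (fun l hl i hi => by
        split_ifs at hi
        · have := hFN i hi
          omega
        · have := hGN i hi
          omega) (fun l hl i hi i' hi' => by
        obtain rfl : l = 0 := by omega
        exact hFG i hi i' hi')
    refine fin _ (fun i => ?_) h1 h2
    simp [hFp]

end Pool.Agent.Results.MP_69be96_nt.GapVectorsNextToRecordGaps
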