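import Mathlib
import Pool.Agent.W199.LPMain

set_option autoImplicit false

/-!
# Open sets of limit points of the vectors of consecutive prime gaps at the record scale

Design and proof: helper199 (a Baire category argument for the `K`-tuple property). It rests on the coloured
Maynard-Tao theorem inside the record windows (`Pool.Agent.H362R2.RQ.stRQ`, helper362, and
`Pool.Agent.H672R3.InfRec.lp`, helper672), the record sieve of helper256 and helper410 and the Maynard-Tao sieve
inside record windows of helper312's team.
-/

open Filter Topology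

namespace Pool.Agent.Results.MP_69be96_nt.InteriorLimitPoints

/-- The record scale `f(x) = log x (log₂ x)² log₄ x / (log₃ x)²` (iterated natural logarithms). -/
noncomputable def f (x : ℝ) : ℝ :=
  Real.log x * (Real.log (Real.log x)) ^ 2 * Real.log (Real.log (Real.log (Real.log x))) /
    (Real.log (Real.log (Real.log x))) ^ 2

/-- The set of the vectors `v ∈ ℝ^m` such that for every `ε > 0` there are infinitely many `n` with
`p_(n+i) ≡ a i (mod q)` for `0 ≤ i ≤ m` and `|(p_(n+i+1) - p_(n+i)) / f(p_n) - v i| < ε` for
`0 ≤ i < m` (`p_n` is the prime with index `n`): the limit points of the vectors of `m` consecutive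
gaps divided by `f`, along blocks of `m + 1` consecutive primes in prescribed classes modulo `q`. -/
def LimitPoints (m q : ℕ) (a : Fin (m + 1) → ℕ) : Set (Fin m → ℝ) :=
  {v | ∀ ε : ℝ, 0 < ε → ∃ᶠ n : ℕ in atTop,
    (∀ i : Fin (m + 1), Nat.nth Nat.Prime (n + i) ≡ a i [MOD q]) ∧
    ∀ i : Fin m, |((Nat.nth Nat.Prime (n + i + 1) : ℝ) - Nat.nth Nat.Prime (n + i)) /
      f (Nat.nth Nat.Prime n) - v i| < ε}

/-- For every `m` there are `K` and `c > 0` such that for every squarefree `q`, all reals
`0 < β_1 < ... < β_K ≤ c` and all residues `a_1, ..., a_K` prime to `q` there are indices `j_0 < ... < j_m`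
such that `(β_(j_1) - β_(j_0), ..., β_(j_m) - β_(j_(m-1)))` lies in the closure of the INTERIOR of the set of
the limit points of the vectors of `m` consecutive prime gaps divided by `f`, along the blocks of primes
congruent to `a_(j_0), ..., a_(j_m)` modulo `q`. -/
theorem result (m : ℕ) : ∃ K : ℕ, ∃ c : ℝ, 0 < c ∧ ∀ q : ℕ, Squarefree q →
    ∀ β : Fin K → ℝ, StrictMono β → (∀ j, 0 < β j ∧ β j ≤ c) →
    ∀ a : Fin K → ℕ, (∀ j, (a j).Coprime q) →
    ∃ j : Fin (m + 1) → Fin K, StrictMono j ∧
      (fun i : Fin m => β (j i.succ) - β (j i.castSucc)) ∈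
        closure (interior (LimitPoints m q (fun i => a (j i)))) :=
  Pool.Agent.W199.LPMain.lp_interior m

/-- Consequence: for every `A` and `T > 0` there is an open set of limit points `v` of the vectors of `m`
consecutive gaps, all of whose primes are `≡ a (mod q)`, with `0 < v i < T` and each gap more than `A` times
any earlier one. -/
theorem growing (m q a : ℕ) (hq : Squarefree q) (ha : a.Coprime q) (A T : ℝ) (hA : 0 < A) (hT : 0 < T) :
    ∃ v ∈ interior (LimitPoints m q (fun _ => a)), (∀ i, 0 < v i ∧ v i < T) ∧ ∀ i j, i < j → A * v i < v j :=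
  Pool.Agent.W199.LPMain.growing m q a hq ha A T hA hT

/-- Consequence: the same with each gap more than `A` times any later one. -/
theorem shrinking (m q a : ℕ) (hq : Squarefree q) (ha : a.Coprime q) (A T : ℝ) (hA : 0 < A) (hT : 0 < T) :
    ∃ v ∈ interior (LimitPoints m q (fun _ => a)), (∀ i, 0 < v i ∧ v i < T) ∧ ∀ i j, i < j → A * v j < v i :=
  Pool.Agent.W199.LPMain.shrinking m q a hq ha A T hA hT

end Pool.Agent.Results.MP_69be96_nt.InteriorLimitPoints
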